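import Mathlib.Algebra.Order.Star.Real
import Pool.Agent.MP_96f5a9_co.h16.IISpec

/-! The reference rate of a family of cells. -/

set_option autoImplicit false

namespace Pool.Agent.MP_96f5a9_co.H42

open Finset H16

theorem fl_le (m x : ℕ) : fl m x ≤ x := by
  unfold fl; exact_mod_cast Nat.mul_div_le x m

theorem fl_ge {m : ℕ} (hm : 0 < m) (x : ℕ) : (x : ℝ) - m ≤ fl m x := by
  have h : x ≤ m * (x / m) + m := by
    have := Nat.div_add_mod x m
    have := Nat.mod_lt x hm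
    omega
  have : (x : ℝ) ≤ m * ((x / m : ℕ) : ℝ) + m := by exact_mod_cast h
  unfold fl; linarith

theorem fl_mono (m : ℕ) {x y : ℕ} (h : x ≤ y) : fl m x ≤ fl m y := by
  unfold fl; exact_mod_cast Nat.mul_le_mul_left m (Nat.div_le_div_right h)

theorem fl_eq {m k x : ℕ} (h1 : m * k ≤ x) (h2 : x < m * (k + 1)) : fl m x = m * k := by
  unfold fl; rw [Nat.div_eq_of_lt_le (by rwa [mul_comm]) (by rwa [mul_comm])]

theorem fl_sum {m : ℕ} (hm : 0 < m) (t : ℕ) : ∑ l ∈ range m, fl m (l + t) = m * t := by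
  induction t with
  | zero =>
    rw [sum_eq_zero fun l hl => by simp [fl, Nat.div_eq_of_lt (mem_range.1 hl)]]; simp
  | succ t ih =>
    have a := sum_range_succ (fun l => fl m (l + t)) m
    have b := sum_range_succ' (fun l => fl m (l + t)) m
    have c : fl m (m + t) = fl m t + m := by
      unfold fl; rw [add_comm, Nat.add_div_right _ hm]; push_cast; ring
    simp only [zero_add] at b
    rw [sum_congr rfl fun l _ => by rw [show l + (t + 1) = l + 1 + t by ring]]
    push_cast; linarith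

theorem ref : RefStmt := by
  intro ι g γ C m s R w hC R1 Rm ms wR h
  have m0 : 0 < m := by omega
  have n0 : (0 : ℝ) < C.card := by exact_mod_cast hC.card_pos
  have lo : ∀ (a : ℝ) (F : ι → ℝ), (∀ k ∈ C, a ≤ F k) → a ≤ (∑ k ∈ C, F k) / C.card :=
    fun a F hF => by
      rw [le_div_iff₀ n0]; simpa [mul_comm] using card_nsmul_le_sum C F a hF
  have hi : ∀ (a : ℝ) (F : ι → ℝ), (∀ k ∈ C, F k ≤ a) → (∑ k ∈ C, F k) / C.card ≤ a :=
    fun a F hF => by
      rw [div_le_iff₀ n0]; simpa [mul_comm] using sum_le_card_nsmul C F a hF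
  have gm : (m : ℝ) ≤ (∑ k ∈ C, (g k : ℝ)) / C.card :=
    lo _ _ fun k hk => by exact_mod_cast (h k hk).1.trans (h k hk).2.1
  have M0 : (0 : ℝ) < m := by exact_mod_cast m0
  have G0 : 0 < ∑ k ∈ C, (g k : ℝ) := by
    have := (le_div_iff₀ n0).1 gm
    nlinarith
  have av : ∀ l, (∑ k ∈ C, (g k : ℝ)) / C.card * ((∑ k ∈ C, fl m (l + γ k)) / ∑ k ∈ C, (g k : ℝ)) =
      (∑ k ∈ C, fl m (l + γ k)) / C.card := fun l => by field_simp
  have df : ∀ F F' : ι → ℝ, (∑ k ∈ C, (F k - F' k)) / C.card =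
      (∑ k ∈ C, F k) / C.card - (∑ k ∈ C, F' k) / C.card := fun F F' => by
    rw [sum_sub_distrib, sub_div]
  have sm : ∑ l ∈ range m, (∑ k ∈ C, fl m (l + γ k)) / ∑ k ∈ C, (g k : ℝ) =
      m * ((∑ k ∈ C, (γ k : ℝ)) / ∑ k ∈ C, (g k : ℝ)) := by
    simp only [div_eq_mul_inv]
    rw [← sum_mul, sum_comm, sum_congr rfl fun k _ => fl_sum m0 (γ k), ← mul_sum, mul_assoc]
  have H : ∀ k ∈ C, (m : ℝ) ≤ γ k ∧ (γ k : ℝ) ≤ g k ∧ (g k : ℝ) ≤ γ k + w ∧ (g k : ℝ) ≤ s + R ∧
      (s : ℝ) ≤ g k + R ∧ (w : ℝ) ≤ R := fun k hk => by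
    obtain ⟨a, b, c, d, e⟩ := h k hk
    exact_mod_cast (⟨a, b, c, d, e, wR⟩ : _ ∧ _ ∧ _ ∧ _ ∧ _ ∧ _)
  refine ⟨⟨R1, Rm, ms, ?_, hi _ _ fun k hk => (H k hk).2.2.2.1, gm, fun a b hab => ?_, ?_,
    fun l => ?_, fun l => ?_, fun l => ?_, fun l k h1 h2 => ?_⟩, ?_⟩
  · linarith [lo (s - _) (fun k => (g k : ℝ)) fun k hk => sub_le_iff_le_add.2 (H k hk).2.2.2.2.1]
  · exact div_le_div_of_nonneg_right (sum_le_sum fun k _ => fl_mono m (by omega)) G0.le
  · rw [sm]
    exact mul_le_of_le_one_right M0.le ((div_le_one G0).2 (sum_le_sum fun k hk => (H k hk).2.1))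
  · rw [av]
    have := lo ((l : ℝ) - R - m) (fun k => fl m (l + γ k) - g k) fun k hk => by
      have a := fl_ge m0 (l + γ k)
      obtain ⟨-, -, c, -, -, e⟩ := H k hk
      push_cast at a
      linarith
    rw [df] at this
    linarith
  · rw [av]
    have := hi (l : ℝ) (fun k => fl m (l + γ k) - g k) fun k hk => by
      have a := fl_le m (l + γ k)
      push_cast at a
      linarith [(H k hk).2.1]
    rw [df] at this
    linarith
  · rw [av]
    refine lo _ _ fun k hk => ?_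
    have := fl_mono m (show m ≤ l + γ k by have := (h k hk).1; omega)
    rwa [show fl m m = m by simp [fl, Nat.div_self m0]] at this
  · rw [av, sum_congr rfl fun j hj => fl_eq (k := k) (by have := h j hj; omega)
      (by have := h j hj; omega), sum_const, nsmul_eq_mul]
    field_simp
  · rw [sm]
    refine mul_le_mul_of_nonneg_left ?_ M0.le
    have := hi (w : ℝ) (fun k => (g k : ℝ) - γ k) fun k hk => by linarith [(H k hk).2.2.1]
    rw [sum_sub_distrib, div_le_iff₀ n0] at this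
    rw [div_div_eq_mul_div, le_div_iff₀ G0, sub_mul, div_mul_cancel₀ _ G0.ne']
    linarith

end Pool.Agent.MP_96f5a9_co.H42
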